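import Pool.Agent.H27.TM.TargetsG
import Pool.Agent.H27.TM.TargetsL
import Pool.Agent.H29.DW.Tools

/-!
# Board tm12_modules, module ET: bounds for the product of the dual functions
-/

set_option autoImplicit false

open NumberField NumberField.InfinitePlace
open scoped nonZeroDivisors

namespace Pool.Agent.H34.TM.ET

open Pool.Agent.H29.DW (wv Pos Rl rv dg)
open Pool.Agent.H27.TM

private lemma Rl_mc {K : Type} [Field K] [NumberField K] (α : InfinitePlace K → ℝ) (ν : K)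
    (v : InfinitePlace K) : Rl (rv v) (mc α ν v) := by
  intro hv
  have h1 : v.IsReal := (Pool.Agent.H29.DW.rv_iff v).1 hv
  have h2 : (v.embedding ν).im = 0 := by
    have h3 := InfinitePlace.isReal_iff.1 h1
    have h4 : (starRingEnd ℂ) (v.embedding ν) = v.embedding ν := by
      have := ComplexEmbedding.isReal_iff.1 h3
      conv_rhs => rw [← this]
      rfl
    exact Complex.conj_eq_iff_im.1 h4
  unfold mc
  rw [Complex.mul_im, h2, Complex.ofReal_im]
  ring

private lemma card_le {K : Type} [Field K] [NumberField K] {n : ℕ}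
    (hn : Module.finrank ℚ K = n) : (Finset.univ : Finset (InfinitePlace K)).card ≤ n := by
  rw [← Pool.Agent.H29.DW.sum_mult hn, Finset.card_eq_sum_ones]
  exact Finset.sum_le_sum fun v _ => (Pool.Agent.H29.DW.mult_pos' v).1

private lemma rpow_half (k : ℕ) {x : ℝ} (hx : 0 < x) :
    (x / 2) ^ (-(k : ℝ)) = 2 ^ k * x ^ (-(k : ℝ)) := by
  rw [Real.div_rpow hx.le (by norm_num), Real.rpow_neg (by norm_num : (0 : ℝ) ≤ 2),
    Real.rpow_natCast]
  field_simp

private lemma prod_bound {ι : Type} (s : Finset ι) (f g : ι → ℝ) (C : ℝ) (n : ℕ) (hC : 1 ≤ C)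
    (hf : ∀ i ∈ s, 0 ≤ f i) (hg : ∀ i ∈ s, 0 ≤ g i) (hfg : ∀ i ∈ s, f i ≤ C * g i)
    (hn : s.card ≤ n) : ∏ i ∈ s, f i ≤ C ^ n * ∏ i ∈ s, g i := by
  calc ∏ i ∈ s, f i ≤ ∏ i ∈ s, (C * g i) := Finset.prod_le_prod hf hfg
    _ = C ^ s.card * ∏ i ∈ s, g i := by rw [Finset.prod_mul_distrib, Finset.prod_const]
    _ ≤ C ^ n * ∏ i ∈ s, g i :=
        mul_le_mul_of_nonneg_right (pow_le_pow_right₀ hC hn) (Finset.prod_nonneg hg)

theorem pf_ET (hE1 : M_E1) : M_ET := by
  intro n k C₁ hn hC₁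
  obtain ⟨C, hC, h⟩ := hE1 k
  obtain ⟨D, hD⟩ : ∃ D, D = max 1 (C * C₁) * 2 ^ k := ⟨_, rfl⟩
  have h2k : (1 : ℝ) ≤ 2 ^ k := one_le_pow₀ (by norm_num)
  have hm1 : (1 : ℝ) ≤ max 1 (C * C₁) := le_max_left _ _
  have hD1 : 1 ≤ D := by
    rw [hD]
    nlinarith
  have hD2 : C * C₁ * 2 ^ k ≤ D := by
    rw [hD]
    exact mul_le_mul_of_nonneg_right (le_max_right _ _) (by positivity)
  have hCC : 0 ≤ C * C₁ := by positivity
  have hD3 : C * C₁ ≤ D := le_trans (by nlinarith) hD2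
  refine ⟨D ^ n, by positivity, ?_⟩
  intro K _ _ hK α τ c Q hα hc hQ
  have hbt : ∀ v, 1 ≤ bt α τ v := fun v => le_max_left _ _
  have hcard := card_le hK
  constructor
  · intro ν
    unfold Ep
    rw [norm_prod]
    refine prod_bound _ _ _ D n hD1 (fun v _ => norm_nonneg _) (fun v _ => ?_)
      (fun v _ => ?_) hcard
    · have := hbt v
      positivity
    · have h1 := (h (rv v) (α v) (c v) (mc α ν v) (Q v) C₁ (hα v).1 (hα v).2 (hc.real v)
        (Rl_mc α ν v) hC₁ (hQ v)).1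
      have hb := hbt v
      have hmx : max 1 (α v * ‖c v‖) ≤ 2 * bt α τ v := by
        refine max_le (by linarith) ?_
        have h2 : α v * τ v ≤ bt α τ v := le_max_right _ _
        have h3 := hc.upp v
        have h4 := (hα v).1
        nlinarith
      have hmx0 : 0 < max 1 (α v * ‖c v‖) := lt_of_lt_of_le one_pos (le_max_left _ _)
      have h5 : (1 + ‖mc α ν v‖ / bt α τ v) / 2 ≤
          1 + ‖mc α ν v‖ / max 1 (α v * ‖c v‖) := by
        have h6 : ‖mc α ν v‖ / (2 * bt α τ v) ≤ ‖mc α ν v‖ / max 1 (α v * ‖c v‖) :=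
          div_le_div_of_nonneg_left (norm_nonneg _) hmx0 hmx
        have h7 : ‖mc α ν v‖ / (2 * bt α τ v) = ‖mc α ν v‖ / bt α τ v / 2 := by
          rw [mul_comm, div_mul_eq_div_div]
        linarith
      have h8 : 0 < 1 + ‖mc α ν v‖ / bt α τ v := by positivity
      have h9 : (1 + ‖mc α ν v‖ / max 1 (α v * ‖c v‖)) ^ (-(k : ℝ)) ≤
          2 ^ k * (1 + ‖mc α ν v‖ / bt α τ v) ^ (-(k : ℝ)) := by
        rw [← rpow_half k h8]
        exact Real.rpow_le_rpow_of_nonpos (by positivity) h5 (by simp)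
      have h10 : 0 ≤ (1 + ‖mc α ν v‖ / bt α τ v) ^ (-(k : ℝ)) := by positivity
      calc ‖El (rv v) (α v) (c v) (Q v) (mc α ν v)‖
          ≤ C * C₁ * (1 + ‖mc α ν v‖ / max 1 (α v * ‖c v‖)) ^ (-(k : ℝ)) := h1
        _ ≤ C * C₁ * (2 ^ k * (1 + ‖mc α ν v‖ / bt α τ v) ^ (-(k : ℝ))) :=
            mul_le_mul_of_nonneg_left h9 hCC
        _ = C * C₁ * 2 ^ k * (1 + ‖mc α ν v‖ / bt α τ v) ^ (-(k : ℝ)) := by ring
        _ ≤ D * (1 + ‖mc α ν v‖ / bt α τ v) ^ (-(k : ℝ)) :=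
            mul_le_mul_of_nonneg_right hD2 h10
  · unfold Ep
    rw [norm_prod]
    refine prod_bound _ _ _ D n hD1 (fun v _ => norm_nonneg _) (fun v _ => ?_)
      (fun v _ => ?_) hcard
    · have := hbt v
      positivity
    · have h0 : mc α (0 : K) v = 0 := by
        unfold mc
        rw [map_zero, mul_zero]
      have h1 := (h (rv v) (α v) (c v) 0 (Q v) C₁ (hα v).1 (hα v).2 (hc.real v)
        (fun _ => by simp) hC₁ (hQ v)).2
      rw [h0]
      have hb := hbt v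
      have h4 := (hα v).1
      have h5 := (hα v).2
      have h6 : bt α τ v ≤ 1 + α v * ‖c v‖ := by
        refine max_le ?_ ?_
        · have : 0 ≤ α v * ‖c v‖ := by positivity
          linarith
        · have h3 := hc.low v
          nlinarith
      have h7 : (1 + α v * ‖c v‖) ^ (-(k : ℝ)) ≤ bt α τ v ^ (-(k : ℝ)) :=
        Real.rpow_le_rpow_of_nonpos (by positivity) h6 (by simp)
      have h10 : 0 ≤ bt α τ v ^ (-(k : ℝ)) := by positivity
      calc ‖El (rv v) (α v) (c v) (Q v) 0‖ ≤ C * C₁ * (1 + α v * ‖c v‖) ^ (-(k : ℝ)) := h1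
        _ ≤ C * C₁ * bt α τ v ^ (-(k : ℝ)) := mul_le_mul_of_nonneg_left h7 hCC
        _ ≤ D * bt α τ v ^ (-(k : ℝ)) := mul_le_mul_of_nonneg_right hD3 h10

end Pool.Agent.H34.TM.ET
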