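import Pool.Agent.H27.TM.TargetsG
import Pool.Agent.H31.SW.TargetsG

/-!
# Board tm12_modules, module WZ: weighted sums over the nonzero lattice points
-/

set_option autoImplicit false

open NumberField NumberField.InfinitePlace
open scoped nonZeroDivisors

namespace Pool.Agent.H34.TM.WZ

open Pool.Agent.H25.HK Pool.Agent.H23.LB Pool.Agent.H23.LC
open Pool.Agent.H29.DW (wv Pos)
open Pool.Agent.H31.SW (DD PP)
open Pool.Agent.H27.TM

private lemma one_add_sq {K : Type} [Field K] [NumberField K] (v : InfinitePlace K) {s : ℝ}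
    (hs : 0 ≤ s) : s ^ v.mult ≤ (1 + s) ^ 2 := by
  unfold InfinitePlace.mult
  split_ifs
  · nlinarith
  · exact pow_le_pow_left₀ hs (by linarith) 2

private lemma DD_pos {K : Type} [Field K] [NumberField K] {L : FI K} (hL : L ≠ 0)
    (y : InfinitePlace K → ℝ) : 0 < DD L y := by
  unfold DD
  have h : 0 < FractionalIdeal.absNorm L := by
    refine lt_of_le_of_ne (FractionalIdeal.absNorm_nonneg L) (Ne.symm ?_)
    rw [Ne, FractionalIdeal.absNorm_eq_zero_iff]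
    exact hL
  have h' : (0 : ℝ) < (FractionalIdeal.absNorm L : ℝ) := by exact_mod_cast h
  positivity

theorem pf_WZ (hWS : Pool.Agent.H31.SW.W_WS) (hNB : Pool.Agent.H31.SW.W_NB) : M_WZ := by
  intro n hn
  obtain ⟨C, hC, h⟩ := hWS n hn
  refine ⟨2 * C, by linarith, ?_⟩
  intro K _ _ hK L y ω J k hL hω hJ hk
  obtain ⟨hs, hb⟩ := h K hK L y ω J k hL hω hJ (by omega)
  obtain ⟨hs2, hb2⟩ := h K hK L y ω J (k - 2) hL hω hJ (by omega)
  obtain ⟨i, hi⟩ : ∃ i : {x : K // x ∈ L ∧ x ≠ 0} → {x : K // x ∈ L},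
      i = fun x => ⟨x.1, x.2.1⟩ := ⟨_, rfl⟩
  have hinj : Function.Injective i := by
    intro a b hab
    have h1 : (i a).1 = (i b).1 := congrArg Subtype.val hab
    rw [hi] at h1
    exact Subtype.ext h1
  have hnn : ∀ (m : ℕ) (x : {x : K // x ∈ L}), 0 ≤ ∏ v : InfinitePlace K,
      (1 + ‖wv v x.1 y ω‖ / J v) ^ (-(m : ℝ)) := by
    intro m x
    refine Finset.prod_nonneg fun v _ => ?_
    have := hJ v
    positivity
  have e : ∀ m : ℕ, (fun x : {x : K // x ∈ L ∧ x ≠ 0} => ∏ v : InfinitePlace K,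
      (1 + ‖wv v x.1 y ω‖ / J v) ^ (-(m : ℝ))) = (fun x : {x : K // x ∈ L} =>
        ∏ v : InfinitePlace K, (1 + ‖wv v x.1 y ω‖ / J v) ^ (-(m : ℝ))) ∘ i := by
    intro m
    rw [hi]
    rfl
  have hS : ∀ m : ℕ, Summable (fun x : {x : K // x ∈ L} =>
        ∏ v : InfinitePlace K, (1 + ‖wv v x.1 y ω‖ / J v) ^ (-(m : ℝ))) →
      Summable (fun x : {x : K // x ∈ L ∧ x ≠ 0} => ∏ v : InfinitePlace K,
      (1 + ‖wv v x.1 y ω‖ / J v) ^ (-(m : ℝ))) := by
    intro m hm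
    rw [e m]
    exact hm.comp_injective hinj
  have hT : ∀ m : ℕ, Summable (fun x : {x : K // x ∈ L} =>
        ∏ v : InfinitePlace K, (1 + ‖wv v x.1 y ω‖ / J v) ^ (-(m : ℝ))) →
      ∑' x : {x : K // x ∈ L ∧ x ≠ 0}, ∏ v : InfinitePlace K,
        (1 + ‖wv v x.1 y ω‖ / J v) ^ (-(m : ℝ)) ≤ ∑' x : {x : K // x ∈ L},
        ∏ v : InfinitePlace K, (1 + ‖wv v x.1 y ω‖ / J v) ^ (-(m : ℝ)) := by
    intro m hm
    have := tsum_comp_le_tsum_of_inj hm (hnn m) hinj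
    rwa [← e m] at this
  refine ⟨hS k hs, ?_⟩
  have hD := DD_pos hL y
  have hP : 0 < PP J := Finset.prod_pos fun v _ => pow_pos (hJ v) _
  obtain ⟨Z, hZ⟩ : ∃ Z, Z = DD L y * PP J := ⟨_, rfl⟩
  have hZ0 : 0 < Z := by rw [hZ]; positivity
  rw [← hZ] at hb hb2 ⊢
  rcases le_or_gt 1 Z with h1 | h1
  · refine (hT k hs).trans (hb.trans ?_)
    nlinarith
  · have hpt : ∀ x : {x : K // x ∈ L ∧ x ≠ 0}, ∏ v : InfinitePlace K,
        (1 + ‖wv v x.1 y ω‖ / J v) ^ (-(k : ℝ)) ≤ Z * ∏ v : InfinitePlace K,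
        (1 + ‖wv v x.1 y ω‖ / J v) ^ (-((k - 2 : ℕ) : ℝ)) := by
      intro x
      have hx := hNB K L y ω x.1 hL hω x.2.1 x.2.2
      have hsv : ∀ v : InfinitePlace K, 0 ≤ ‖wv v x.1 y ω‖ / J v := fun v => by
        have := hJ v
        positivity
      have e1 : ∏ v : InfinitePlace K, (1 + ‖wv v x.1 y ω‖ / J v) ^ (-(k : ℝ)) =
          (∏ v : InfinitePlace K, (1 + ‖wv v x.1 y ω‖ / J v) ^ 2)⁻¹ *
          ∏ v : InfinitePlace K, (1 + ‖wv v x.1 y ω‖ / J v) ^ (-((k - 2 : ℕ) : ℝ)) := by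
        rw [← Finset.prod_inv_distrib, ← Finset.prod_mul_distrib]
        refine Finset.prod_congr rfl fun v _ => ?_
        have h0 : 0 < 1 + ‖wv v x.1 y ω‖ / J v := by linarith [hsv v]
        rw [← Real.rpow_natCast (1 + ‖wv v x.1 y ω‖ / J v) 2, ← Real.rpow_neg h0.le,
          ← Real.rpow_add h0, Nat.cast_sub (by omega)]
        congr 1
        push_cast
        ring
      rw [e1]
      have e2 : (∏ v : InfinitePlace K, ‖wv v x.1 y ω‖ ^ v.mult) / PP J ≤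
          ∏ v : InfinitePlace K, (1 + ‖wv v x.1 y ω‖ / J v) ^ 2 := by
        unfold PP
        rw [← Finset.prod_div_distrib]
        refine Finset.prod_le_prod (fun v _ => by have := hJ v; positivity) fun v _ => ?_
        rw [← div_pow]
        exact one_add_sq v (hsv v)
      have e3 : 1 / Z ≤ ∏ v : InfinitePlace K, (1 + ‖wv v x.1 y ω‖ / J v) ^ 2 := by
        refine le_trans ?_ e2
        rw [hZ, div_le_div_iff₀ (by positivity) hP]
        nlinarith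
      have e4 : (∏ v : InfinitePlace K, (1 + ‖wv v x.1 y ω‖ / J v) ^ 2)⁻¹ ≤ Z := by
        have := inv_anti₀ (by positivity : (0 : ℝ) < 1 / Z) e3
        rwa [one_div, inv_inv] at this
      exact mul_le_mul_of_nonneg_right e4 (hnn (k - 2) ⟨x.1, x.2.1⟩)
    calc ∑' x : {x : K // x ∈ L ∧ x ≠ 0}, ∏ v : InfinitePlace K,
        (1 + ‖wv v x.1 y ω‖ / J v) ^ (-(k : ℝ))
        ≤ ∑' x : {x : K // x ∈ L ∧ x ≠ 0}, Z * ∏ v : InfinitePlace K,
        (1 + ‖wv v x.1 y ω‖ / J v) ^ (-((k - 2 : ℕ) : ℝ)) :=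
          (hS k hs).tsum_le_tsum hpt ((hS (k - 2) hs2).mul_left Z)
      _ = Z * ∑' x : {x : K // x ∈ L ∧ x ≠ 0}, ∏ v : InfinitePlace K,
        (1 + ‖wv v x.1 y ω‖ / J v) ^ (-((k - 2 : ℕ) : ℝ)) := tsum_mul_left
      _ ≤ Z * (C * (1 + Z)) := by
          refine mul_le_mul_of_nonneg_left ((hT (k - 2) hs2).trans hb2) hZ0.le
      _ ≤ 2 * C * Z := by nlinarith [mul_pos hZ0 (by linarith : (0 : ℝ) < C)]

end Pool.Agent.H34.TM.WZ
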